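import Pool.Agent.R703.FS.Gen

/-!
MP_1ae3da_al (the McKay–Galois conjecture).

For a finite group `J` and `n ≥ 1` let `ν_n(χ) = 1/|J| ∑ g, χ(g ^ n)` be the `n`-th Frobenius–Schur
indicator (`indicator n χ`, an integer) of an irreducible complex character `χ`, and let
`fsSum p n C` be the sum of `χ(1) ν_n(χ)` over the irreducible characters `χ` of `J` of degree prime
to `p` with the property `C`. `FixedBy s χ` says that `χ^s = χ`. `PPowerOrder p N s` says that the
automorphism of the field of the `N`-th roots of unity induced by the automorphism `s` of `ℂ` has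
`p`-power order.
-/

set_option autoImplicit false

namespace Pool.Agent.Results.MP_1ae3da_al.FixedCharacterCongruence

open Pool.Agent.R703.FS

/-- Let `P` be a Sylow `p`-subgroup of the finite group `G` and `s` an automorphism of `ℂ` which
induces an automorphism of `p`-power order of the field of the `|G|`-th roots of unity. For every
`n ≥ 1` the sum of `χ(1) ν_n(χ)` over the `s`-fixed characters in `Irr_{p'}(G)` is congruent modulo
`p` to the sum of `ψ(1) ν_n(ψ)` over the `s`-fixed characters in `Irr_{p'}(N_G(P))`. -/
theorem result (p : ℕ) [Fact p.Prime] (G : Type) [Group G] [Finite G] (P : Sylow p G)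
    (s : ℂ ≃+* ℂ) (hs : PPowerOrder p (Nat.card G) s) (n : ℕ) (hn : 0 < n) :
    ∃ m : ℤ, fsSum p n (fun χ : G → ℂ => FixedBy s χ) -
      fsSum p n (fun ψ : Subgroup.normalizer ((P : Subgroup G) : Set G) → ℂ => FixedBy s ψ) =
        p * m :=
  main_groupG (p := p) P.isPGroup' Subgroup.le_normalizer
    (Subgroup.centralizer_le_normalizer _) hn s hs

end Pool.Agent.Results.MP_1ae3da_al.FixedCharacterCongruence
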