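import Pool.Agent.R663.GB.McK

/-!
MP_1ae3da_al (the McKay–Galois conjecture): groups whose Sylow `p`-subgroups have pairwise trivial
intersections.

`E` is a finite group, `G` a normal subgroup, `P` a Sylow `p`-subgroup of `G`, and `NE P` is its
normaliser in `E`, so that `G ∩ NE P = N_G(P)`. For `J = ⊤` the group `G ∩ J` is `G`.

* `IsIrreducibleCharacter` (Pool/Agent/Y63/AWC/Defs.lean): complex irreducible characters.
* `StableUnder G J e τ ψ` (Pool/Agent/R663/GA/EqV.lean): for some `a ∈ J` in the coset `Ge` one has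
  `ψ(a x a⁻¹) = τ(ψ(x))` for all `x ∈ G ∩ J`. For `e = 1` this is `ψ = ψ^τ`.
* `numSt G J e τ` (Pool/Agent/R663/GB/McK.lean): the number of the `ψ ∈ Irr(G ∩ J)` with this
  property.
* `IsPDeg p ψ` (same file): the degree `ψ(1)` is prime to `p`.
-/

set_option autoImplicit false

namespace Pool.Agent.Results.MP_1ae3da_al.TISylowMcKay

open Pool.Agent.Y63.AWC (IsIrreducibleCharacter)
open Pool.Agent.Y63.KR Pool.Agent.R663.GA Pool.Agent.R663.GB

/-- The normaliser in `E` of a Sylow `p`-subgroup of the subgroup `G`. -/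
def NE {E : Type} [Group E] {G : Subgroup E} {p : ℕ} (P : Sylow p G) : Subgroup E :=
  Subgroup.normalizer (((P : Subgroup G).map G.subtype : Subgroup E) : Set E)

/-- `Irr_{p'}(G ∩ J)`. -/
abbrev IrrPrime (p : ℕ) {E : Type} [Group E] (G J : Subgroup E) : Type :=
  {ψ : ↥(G ⊓ J) → ℂ // IsIrreducibleCharacter ψ ∧ IsPDeg p ψ}

/-- Let `G` be a normal subgroup of the finite group `E`, whose Sylow `p`-subgroups are nontrivial
and have pairwise trivial intersections, `P` a Sylow `p`-subgroup of `G`. Let `m` be the `p'`-part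
of `|G|`.
1. If the automorphisms `τ` and `τ'` of the complex numbers agree on the `m`-th roots of unity, then
the difference of the numbers of the elements of `Irr(G)` and `Irr(N_G(P))` stable under `(eG, τ)`
is the same as for `(eG, τ')`.
2. Let `p` be odd, let the irreducible characters of `G` of degree divisible by `p` be fixed by the
automorphisms fixing the `m`-th roots of unity, let all irreducible characters of `N_G(P)` have
degree prime to `p`, and `|Irr_{p'}(G)| = |Irr_{p'}(N_G(P))|`. Then there is a bijection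
`Irr_{p'}(G) → Irr_{p'}(N_G(P))` which commutes with all automorphisms fixing the `m`-th roots of
unity. -/
theorem result (p : ℕ) [Fact p.Prime] (E : Type) [Group E] [Finite E] (G : Subgroup E) [G.Normal]
    (hTI : ∀ S T : Sylow p G, S ≠ T → (S : Subgroup G) ⊓ (T : Subgroup G) = ⊥)
    (hp : p ∣ Nat.card G) (P : Sylow p G)
    (m : ℕ) (hm : m = Nat.card G / p ^ (Nat.card G).factorization p) :
    (∀ (e : E) (τ τ' : ℂ ≃+* ℂ), (∀ z : ℂ, z ^ m = 1 → τ z = τ' z) →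
      (numSt G ⊤ e τ : ℤ) - (numSt G (NE P) e τ : ℤ) =
        (numSt G ⊤ e τ' : ℤ) - (numSt G (NE P) e τ' : ℤ)) ∧
    (p ≠ 2 →
      (∀ χ : ↥(G ⊓ ⊤) → ℂ, IsIrreducibleCharacter χ → ¬ IsPDeg p χ →
        ∀ τ : ℂ ≃+* ℂ, (∀ z : ℂ, z ^ m = 1 → τ z = z) → ∀ x, χ x = τ (χ x)) →
      (∀ ψ : ↥(G ⊓ NE P) → ℂ, IsIrreducibleCharacter ψ → IsPDeg p ψ) →
      Nat.card (IrrPrime p G ⊤) = Nat.card (IrrPrime p G (NE P)) →
      ∃ f : IrrPrime p G ⊤ ≃ IrrPrime p G (NE P),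
        ∀ τ : ℂ ≃+* ℂ, (∀ z : ℂ, z ^ m = 1 → τ z = z) → ∀ χ χ' : IrrPrime p G ⊤,
          (∀ x, χ'.1 x = τ (χ.1 x)) → ∀ y, (f χ').1 y = τ ((f χ).1 y)) := by
  subst hm
  obtain ⟨red⟩ := Pool.Agent.Y63.NV.exists_red p (AlgebraicClosure (ZMod p))
  have h1 : ∀ (e : E) (τ τ' : ℂ ≃+* ℂ),
      (∀ z : ℂ, z ^ (Nat.card G / p ^ (Nat.card G).factorization p) = 1 → τ z = τ' z) →
      (numSt G ⊤ e τ : ℤ) - (numSt G (NE P) e τ : ℤ) =
        (numSt G ⊤ e τ' : ℤ) - (numSt G (NE P) e τ' : ℤ) := fun e τ τ' h =>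
    diff_all red hTI hp P e τ τ' h
  refine ⟨h1, fun hp2 hr hN hc => ?_⟩
  refine exists_bijQ hp2 (IsPDeg p) (IsPDeg p) (fun χ h τ => pdeg_tau h τ)
    (fun χ h τ => pdeg_tau h τ) fun τ hτ => ?_
  have h2 := h1 1 τ 1 (fun z hz => hτ z hz)
  rw [numSt_split ⊤ (IsPDeg p), numSt_split ⊤ (IsPDeg p), numSt_split (NE P) (IsPDeg p),
    numSt_split (NE P) (IsPDeg p)] at h2
  have e1 : ∀ {J : Subgroup E} (Q : (↥(G ⊓ J) → ℂ) → Prop),
      fQ Q (1 : ℂ ≃+* ℂ) = Nat.card {ψ : ↥(G ⊓ J) → ℂ // IsIrreducibleCharacter ψ ∧ Q ψ} :=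
    fun Q => Nat.card_congr (Equiv.subtypeUnivEquiv fun _ _ => rfl)
  have e2 : fQ (G := G) (J := ⊤) (fun χ => ¬ IsPDeg p χ) τ =
      fQ (G := G) (J := ⊤) (fun χ => ¬ IsPDeg p χ) 1 := by
    rw [e1]
    exact Nat.card_congr (Equiv.subtypeUnivEquiv fun χ x => hr χ.1 χ.2.1 χ.2.2 τ hτ x)
  have e3 : ∀ σ : ℂ ≃+* ℂ, fQ (G := G) (J := NE P) (fun χ => ¬ IsPDeg p χ) σ = 0 := by
    intro σ
    have : IsEmpty {χ : XQ (G := G) (J := NE P) (fun χ => ¬ IsPDeg p χ) //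
        ∀ x, χ.1 x = σ (χ.1 x)} := ⟨fun χ => χ.1.2.2 (hN χ.1.1 χ.1.2.1)⟩
    exact Nat.card_of_isEmpty
  have e4 : fQ (G := G) (J := ⊤) (IsPDeg p) 1 = fQ (G := G) (J := NE P) (IsPDeg p) 1 := by
    rw [e1, e1]
    exact hc
  rw [e2, e3, e3, e4] at h2
  push_cast at h2
  omega

end Pool.Agent.Results.MP_1ae3da_al.TISylowMcKay
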