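import Pool.Agent.R893.TP2.FinMG2
import Pool.Agent.R893.TP2.All2

/-!
# The McKay–Galois conjecture is equivalent to its asymptotic form
-/

namespace Pool.Agent.Results.MP_1ae3da_al.TensorPowerGap

open Pool.Agent.H254R3.IN Pool.Agent.R893.TP2

/-- The group `𝓗` of the McKay–Galois conjecture (as a group of automorphisms of `ℂ`): it is
generated by the `σ` such that for some `e ≥ 0` one has `σ(ξ) = ξ^{p^e}` for all roots of unity `ξ`
of order prime to `p`. -/
def Hgal (p : ℕ) : Subgroup (RingAut ℂ) :=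
  Subgroup.closure {σ | ∃ e : ℕ, ∀ (m : ℕ) (ξ : ℂ), ¬ p ∣ m → ξ ^ m = 1 → σ ξ = ξ ^ p ^ e}

/-- The statement for one group of automorphisms `A` (see `result`). -/
def GapStatement (p : ℕ) (A : Subgroup (RingAut ℂ))
    (X : ∀ (G : Type) [Group G], Prop) : Prop :=
    (∀ K : Subgroup (RingAut ℂ), K ≤ A → ∀ ε : ℝ, 0 < ε → ∃ C : ℝ, ∃ N : ℕ,
      ∀ (G : Type) [Group G] [Finite G] (P : Sylow p G), X G → N ≤ Nat.card P →
        (kP p (K : Set (RingAut ℂ)) G : ℝ) ≤ C * (Nat.card G : ℝ) ^ ε *
            (kP p (K : Set (RingAut ℂ)) (Subgroup.normalizer ((P : Subgroup G) : Set G)) : ℝ) ∧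
          (kP p (K : Set (RingAut ℂ)) (Subgroup.normalizer ((P : Subgroup G) : Set G)) : ℝ) ≤
            C * (Nat.card G : ℝ) ^ ε * (kP p (K : Set (RingAut ℂ)) G : ℝ)) ↔
    (∀ (G : Type) [Group G] [Finite G] (P : Sylow p G), X G →
      ∃ f : IrrP p G ≃ IrrP p (Subgroup.normalizer ((P : Subgroup G) : Set G)),
        Equivar (A : Set (RingAut ℂ)) f)

/-- Let `p` be a prime and `X` a class of groups closed under `G ↦ G × G` (for instance all
groups). The following are equivalent: for all finite groups `G` in `X` and all Sylow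
`p`-subgroups `P` of `G` there is a bijection `Irr_{p'}(G) → Irr_{p'}(N_G(P))` commuting with the
action of `𝓗`; for every subgroup `K` of `𝓗` and every `ε > 0` there are `C`, `N` such that, for
all these `G`, `P` with `|P| ≥ N`, the numbers of `K`-fixed members of `Irr_{p'}(G)` and
`Irr_{p'}(N_G(P))` differ by a factor at most `C |G|^ε`. The same holds for every group `A` of
automorphisms of `ℂ` in place of `𝓗`. -/
theorem result (p : ℕ) (hp : p.Prime) (X : ∀ (G : Type) [Group G], Prop)
    (hX : ∀ (G : Type) [Group G], X G → X (G × G)) :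
    GapStatement p (Hgal p) X ∧ ∀ A : Subgroup (RingAut ℂ), GapStatement p A X :=
  ⟨mg_final tw mark hPF syl norm piso p hp (Hgal p) X hX,
    fun A => mg_final tw mark hPF syl norm piso p hp A X hX⟩

end Pool.Agent.Results.MP_1ae3da_al.TensorPowerGap
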